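import Mathlib

/-!
The convex body `body` in `l2 × ℝ` which will be the dual unit ball of the counterexample.
-/

set_option autoImplicit false

open Filter Topology
open scoped InnerProductSpace

namespace Pool.Agent.P.MP_d85bbb_an

/-- The real Hilbert space of square summable sequences. -/
abbrev Hs : Type := lp (fun _ : ℕ => ℝ) 2

/-- The Hilbert sum of `Hs` and the real line. -/
abbrev Zs : Type := WithLp 2 (Hs × ℝ)

/-- The weighted sum of the positive parts of the coordinates. -/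
noncomputable def aa (y : Hs) : ℝ := ∑' n, (1 / 2 : ℝ) ^ n * max (y n) 0

/-- The part of the defining function depending on the last coordinate. -/
noncomputable def GG (p q t : ℝ) : ℝ := p ^ 2 / (2 + t) + q ^ 2 / (2 - t) + max 0 (2 * |t| - 1)

/-- The defining function of the body. -/
noncomputable def Phi (z : Zs) : ℝ := ‖z.fst‖ ^ 2 + GG (aa z.fst) (aa (-z.fst)) z.snd

/-- The convex body. -/
def body : Set Zs := {z | |z.snd| ≤ 1 ∧ Phi z ≤ 1}

lemma abs_coord_le (y : Hs) (n : ℕ) : |y n| ≤ ‖y‖ := by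
  simpa [Real.norm_eq_abs] using lp.norm_apply_le_norm (by norm_num) y n

lemma term_nonneg (y : Hs) (n : ℕ) : 0 ≤ (1 / 2 : ℝ) ^ n * max (y n) 0 :=
  mul_nonneg (by positivity) (le_max_right _ _)

lemma term_le (y : Hs) (n : ℕ) : (1 / 2 : ℝ) ^ n * max (y n) 0 ≤ (1 / 2 : ℝ) ^ n * ‖y‖ :=
  mul_le_mul_of_nonneg_left
    (max_le ((le_abs_self _).trans (abs_coord_le y n)) (norm_nonneg _)) (by positivity)

lemma term_summable (y : Hs) : Summable (fun n => (1 / 2 : ℝ) ^ n * max (y n) 0) :=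
  Summable.of_nonneg_of_le (term_nonneg y) (term_le y) (summable_geometric_two.mul_right _)

lemma aa_nonneg (y : Hs) : 0 ≤ aa y := tsum_nonneg (term_nonneg y)

lemma aa_le (y : Hs) : aa y ≤ 2 * ‖y‖ := by
  have h := (term_summable y).tsum_le_tsum (term_le y) (summable_geometric_two.mul_right _)
  rwa [tsum_mul_right, tsum_geometric_two] at h

lemma aa_comb (y y' : Hs) (l m : ℝ) (hl : 0 ≤ l) (hm : 0 ≤ m) :
    aa (l • y + m • y') ≤ l * aa y + m * aa y' := by
  unfold aa
  rw [← tsum_mul_left, ← tsum_mul_left,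
    ← ((term_summable y).mul_left l).tsum_add ((term_summable y').mul_left m)]
  refine (term_summable _).tsum_le_tsum (fun n => ?_)
    (((term_summable y).mul_left l).add ((term_summable y').mul_left m))
  have h1 : (l • y + m • y') n = l * y n + m * y' n := by simp
  rw [h1]
  have h2 : max (l * y n + m * y' n) 0 ≤ l * max (y n) 0 + m * max (y' n) 0 := by
    refine max_le ?_ (by positivity)
    have := mul_le_mul_of_nonneg_left (le_max_left (y n) 0) hl
    have := mul_le_mul_of_nonneg_left (le_max_left (y' n) 0) hm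
    linarith
  have h3 : (0 : ℝ) ≤ (1 / 2 : ℝ) ^ n := by positivity
  nlinarith [mul_le_mul_of_nonneg_left h2 h3]

lemma aa_continuous : Continuous aa := by
  have : LipschitzWith 2 aa := by
    refine LipschitzWith.of_le_add_mul 2 (fun y y' => ?_)
    have h := aa_comb y' (y - y') 1 1 zero_le_one zero_le_one
    have h2 := aa_le (y - y')
    simp only [one_smul, add_sub_cancel, one_mul] at h
    rw [dist_eq_norm]
    push_cast
    linarith
  exact this.continuous

lemma aa_comp_continuous {K : Type*} [TopologicalSpace K] (y : K → Hs)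
    (hy : ∀ n, Continuous fun k => y k n) (hb : ∀ k, ‖y k‖ ≤ 1) : Continuous fun k => aa (y k) := by
  unfold aa
  refine continuous_tsum (u := fun n => (1 / 2 : ℝ) ^ n) (fun n => ?_) summable_geometric_two
    (fun n k => ?_)
  · exact continuous_const.mul ((hy n).max continuous_const)
  · rw [Real.norm_eq_abs, abs_of_nonneg (term_nonneg _ _)]
    refine (term_le _ _).trans ?_
    have h3 : (0 : ℝ) ≤ (1 / 2 : ℝ) ^ n := by positivity
    nlinarith [hb k]

lemma eq_zero_of_aa (y : Hs) (h1 : aa y = 0) (h2 : aa (-y) = 0) : y = 0 := by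
  have key : ∀ (u : Hs), aa u = 0 → ∀ n, u n ≤ 0 := fun u hu n => by
    have h := (term_summable u).le_tsum n (fun j _ => term_nonneg u j)
    have h' : (1 / 2 : ℝ) ^ n * max (u n) 0 ≤ 0 := by
      unfold aa at hu
      rwa [hu] at h
    have h3 : (0 : ℝ) < (1 / 2 : ℝ) ^ n := by positivity
    have h4 : max (u n) 0 ≤ 0 := by
      by_contra hc
      push Not at hc
      nlinarith [mul_pos h3 hc]
    exact (le_max_left _ _).trans h4
  ext n
  have a1 := key y h1 n
  have a2 := key (-y) h2 n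
  have a3 : (-y) n = - y n := by simp
  rw [a3] at a2
  have : y n = 0 := by linarith
  simpa using this

lemma aa_single (n : ℕ) (c : ℝ) : aa (lp.single 2 n c) = (1 / 2 : ℝ) ^ n * max c 0 := by
  unfold aa
  rw [tsum_eq_single n]
  · rw [lp.single_apply_self]
  · intro m hm
    rw [lp.single_apply_ne _ _ _ hm]
    simp

lemma quad_over_lin (p p1 p2 w1 w2 l m : ℝ) (hl : 0 ≤ l) (hm : 0 ≤ m) (hlm : l + m = 1)
    (hp : 0 ≤ p) (hpp : p ≤ l * p1 + m * p2) (hw1 : 0 < w1) (hw2 : 0 < w2) :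
    p ^ 2 / (l * w1 + m * w2) ≤ l * (p1 ^ 2 / w1) + m * (p2 ^ 2 / w2) := by
  have hw : 0 < l * w1 + m * w2 := by
    rcases eq_or_lt_of_le hl with h | h
    · have : m = 1 := by linarith
      rw [← h, this]; simpa using hw2
    · have := mul_pos h hw1
      have := mul_nonneg hm hw2.le
      linarith
  set w := l * w1 + m * w2 with hwdef
  set r := p / w with hr
  have hr0 : 0 ≤ r := div_nonneg hp hw.le
  have key : ∀ u v : ℝ, 0 < v → 2 * r * u - r ^ 2 * v ≤ u ^ 2 / v := fun u v hv => by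
    rw [le_div_iff₀ hv]
    nlinarith [sq_nonneg (u - r * v)]
  have h1 := mul_le_mul_of_nonneg_left (key p1 w1 hw1) hl
  have h2 := mul_le_mul_of_nonneg_left (key p2 w2 hw2) hm
  have h3 : p ^ 2 / w = 2 * r * p - r ^ 2 * w := by
    rw [hr]; field_simp; ring
  rw [h3]
  have h4 := mul_le_mul_of_nonneg_left hpp hr0
  have h5 : r ^ 2 * w = l * (r ^ 2 * w1) + m * (r ^ 2 * w2) := by rw [hwdef]; ring
  nlinarith

lemma chi_convex (t1 t2 l m : ℝ) (hl : 0 ≤ l) (hm : 0 ≤ m) (hlm : l + m = 1) :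
    max 0 (2 * |l * t1 + m * t2| - 1) ≤ l * max 0 (2 * |t1| - 1) + m * max 0 (2 * |t2| - 1) := by
  refine max_le (by positivity) ?_
  have h1 : |l * t1 + m * t2| ≤ l * |t1| + m * |t2| := by
    refine (abs_add_le _ _).trans ?_
    rw [abs_mul, abs_mul, abs_of_nonneg hl, abs_of_nonneg hm]
  have h2 := mul_le_mul_of_nonneg_left (le_max_right 0 (2 * |t1| - 1)) hl
  have h3 := mul_le_mul_of_nonneg_left (le_max_right 0 (2 * |t2| - 1)) hm
  nlinarith

lemma GG_convex (p p1 p2 q q1 q2 t1 t2 l m : ℝ) (hl : 0 ≤ l) (hm : 0 ≤ m) (hlm : l + m = 1)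
    (hp : 0 ≤ p) (hpp : p ≤ l * p1 + m * p2) (hq : 0 ≤ q) (hqq : q ≤ l * q1 + m * q2)
    (h1 : |t1| ≤ 1) (h2 : |t2| ≤ 1) :
    GG p q (l * t1 + m * t2) ≤ l * GG p1 q1 t1 + m * GG p2 q2 t2 := by
  rw [abs_le] at h1 h2
  have a1 := quad_over_lin p p1 p2 (2 + t1) (2 + t2) l m hl hm hlm hp hpp (by linarith)
    (by linarith)
  have a2 := quad_over_lin q q1 q2 (2 - t1) (2 - t2) l m hl hm hlm hq hqq (by linarith)
    (by linarith)
  have a3 := chi_convex t1 t2 l m hl hm hlm
  have e1 : l * (2 + t1) + m * (2 + t2) = 2 + (l * t1 + m * t2) := by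
    linear_combination 2 * hlm
  have e2 : l * (2 - t1) + m * (2 - t2) = 2 - (l * t1 + m * t2) := by
    linear_combination 2 * hlm
  rw [e1] at a1
  rw [e2] at a2
  unfold GG
  nlinarith

lemma GG_nonneg (p q t : ℝ) (h : |t| ≤ 1) : 0 ≤ GG p q t := by
  rw [abs_le] at h
  have : 0 < 2 + t := by linarith
  have : 0 < 2 - t := by linarith
  unfold GG
  positivity

lemma GG_comb (z z' : Zs) (l m : ℝ) (hl : 0 ≤ l) (hm : 0 ≤ m) (hlm : l + m = 1)
    (h1 : |z.snd| ≤ 1) (h2 : |z'.snd| ≤ 1) :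
    GG (aa (l • z + m • z').fst) (aa (-(l • z + m • z').fst)) (l • z + m • z').snd ≤
      l * GG (aa z.fst) (aa (-z.fst)) z.snd + m * GG (aa z'.fst) (aa (-z'.fst)) z'.snd := by
  have e1 : (l • z + m • z').fst = l • z.fst + m • z'.fst := by simp
  have e2 : (l • z + m • z').snd = l * z.snd + m * z'.snd := by simp
  have e3 : -(l • z.fst + m • z'.fst) = l • (-z.fst) + m • (-z'.fst) := by
    rw [smul_neg, smul_neg, neg_add]
  rw [e1, e2, e3]
  exact GG_convex _ _ _ _ _ _ _ _ l m hl hm hlm (aa_nonneg _) (aa_comb _ _ l m hl hm)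
    (aa_nonneg _) (aa_comb _ _ l m hl hm) h1 h2

lemma normsq_comb (y y' : Hs) (l m : ℝ) (hlm : l + m = 1) :
    ‖l • y + m • y'‖ ^ 2 = l * ‖y‖ ^ 2 + m * ‖y'‖ ^ 2 - l * m * ‖y - y'‖ ^ 2 := by
  have hm : m = 1 - l := by linarith
  rw [norm_add_sq_real, norm_sub_sq_real, norm_smul, norm_smul, inner_smul_left,
    inner_smul_right, mul_pow, mul_pow, Real.norm_eq_abs, Real.norm_eq_abs, sq_abs, sq_abs, hm]
  simp only [conj_trivial]
  ring

lemma Phi_comb (z z' : Zs) (l m : ℝ) (hl : 0 ≤ l) (hm : 0 ≤ m) (hlm : l + m = 1)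
    (h1 : |z.snd| ≤ 1) (h2 : |z'.snd| ≤ 1) :
    Phi (l • z + m • z') ≤ l * Phi z + m * Phi z' - l * m * ‖z.fst - z'.fst‖ ^ 2 := by
  have a := GG_comb z z' l m hl hm hlm h1 h2
  have e1 : (l • z + m • z').fst = l • z.fst + m • z'.fst := by simp
  have b := normsq_comb z.fst z'.fst l m hlm
  rw [← e1] at b
  unfold Phi
  nlinarith

lemma abs_snd_comb (z z' : Zs) (l m : ℝ) (hl : 0 ≤ l) (hm : 0 ≤ m) (hlm : l + m = 1)
    (h1 : |z.snd| ≤ 1) (h2 : |z'.snd| ≤ 1) : |(l • z + m • z').snd| ≤ 1 := by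
  have e2 : (l • z + m • z').snd = l * z.snd + m * z'.snd := by simp
  rw [e2, abs_le]
  rw [abs_le] at h1 h2
  constructor <;> nlinarith

lemma body_convex : Convex ℝ body := by
  intro z hz z' hz' l m hl hm hlm
  refine ⟨abs_snd_comb z z' l m hl hm hlm hz.1 hz'.1, ?_⟩
  have a := Phi_comb z z' l m hl hm hlm hz.1 hz'.1
  have b : 0 ≤ l * m * ‖z.fst - z'.fst‖ ^ 2 := by positivity
  have c := mul_le_mul_of_nonneg_left hz.2 hl
  have d := mul_le_mul_of_nonneg_left hz'.2 hm
  linarith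

lemma Phi_continuousAt (z : Zs) (h : |z.snd| ≤ 1) : ContinuousAt Phi z := by
  rw [abs_le] at h
  have h1 : 2 + z.snd ≠ 0 := by linarith
  have h2 : 2 - z.snd ≠ 0 := by linarith
  have c1 : Continuous fun z : Zs => z.fst := WithLp.continuous_fst _ _ _
  have c2 : Continuous fun z : Zs => z.snd := WithLp.continuous_snd _ _ _
  have c3 : Continuous fun z : Zs => aa z.fst := aa_continuous.comp c1
  have c4 : Continuous fun z : Zs => aa (-z.fst) := aa_continuous.comp c1.neg
  unfold Phi GG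
  refine (c1.norm.pow 2).continuousAt.add (ContinuousAt.add (ContinuousAt.add ?_ ?_) ?_)
  · exact (c3.pow 2).continuousAt.div (continuous_const.add c2).continuousAt h1
  · exact (c4.pow 2).continuousAt.div (continuous_const.sub c2).continuousAt h2
  · exact (continuous_const.max
      ((continuous_const.mul c2.abs).sub continuous_const)).continuousAt

lemma body_closed : IsClosed body := by
  have c2 : Continuous fun z : Zs => z.snd := WithLp.continuous_snd _ _ _
  have h1 : IsClosed {z : Zs | |z.snd| ≤ 1} := isClosed_le c2.abs continuous_const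
  have h2 : ContinuousOn Phi {z : Zs | |z.snd| ≤ 1} :=
    fun z hz => (Phi_continuousAt z hz).continuousWithinAt
  exact h2.preimage_isClosed_of_isClosed h1 (isClosed_Iic (a := (1 : ℝ)))

lemma body_neg (z : Zs) (hz : z ∈ body) : -z ∈ body := by
  have e1 : (-z).fst = -z.fst := by simp
  have e2 : (-z).snd = -z.snd := by simp
  refine ⟨by rw [e2, abs_neg]; exact hz.1, ?_⟩
  have h := hz.2
  unfold Phi GG at h ⊢
  rw [e1, e2, neg_neg, norm_neg, abs_neg, sub_neg_eq_add, ← sub_eq_add_neg]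
  linarith

lemma body_fst_le (z : Zs) (hz : z ∈ body) : ‖z.fst‖ ≤ 1 := by
  have h := hz.2
  have h2 := GG_nonneg (aa z.fst) (aa (-z.fst)) z.snd hz.1
  unfold Phi at h
  nlinarith [norm_nonneg z.fst]

lemma body_norm_le (z : Zs) (hz : z ∈ body) : ‖z‖ ≤ 2 := by
  have h := WithLp.prod_norm_sq_eq_of_L2 z
  have h1 := body_fst_le z hz
  have h2 := hz.1
  rw [Real.norm_eq_abs] at h
  nlinarith [norm_nonneg z.fst, norm_nonneg z, abs_nonneg z.snd]

lemma ball_subset_body (z : Zs) (hz : ‖z‖ ≤ 1 / 3) : z ∈ body := by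
  have h1 : ‖z.fst‖ ≤ 1 / 3 := (WithLp.norm_fst_le _ z).trans hz
  have h2 : |z.snd| ≤ 1 / 3 := (WithLp.norm_snd_le _ z).trans hz
  refine ⟨by linarith, ?_⟩
  have a1 := aa_le z.fst
  have a2 := aa_le (-z.fst)
  rw [norm_neg] at a2
  have a3 := aa_nonneg z.fst
  have a4 := aa_nonneg (-z.fst)
  have a5 := norm_nonneg z.fst
  have h3 := abs_le.1 h2
  have b1 : aa z.fst ^ 2 / (2 + z.snd) ≤ 4 / 9 := by
    rw [div_le_iff₀ (by linarith)]; nlinarith
  have b2 : aa (-z.fst) ^ 2 / (2 - z.snd) ≤ 4 / 9 := by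
    rw [div_le_iff₀ (by linarith)]; nlinarith
  have b3 : max 0 (2 * |z.snd| - 1) = 0 := max_eq_left (by linarith)
  unfold Phi GG
  rw [b3]
  nlinarith

lemma inv_strict (u w1 w2 : ℝ) (hu : 0 < u) (h1 : 0 < w1) (h2 : 0 < w2) (hne : w1 ≠ w2) :
    u ^ 2 / (1 / 2 * w1 + 1 / 2 * w2) < 1 / 2 * (u ^ 2 / w1) + 1 / 2 * (u ^ 2 / w2) := by
  have h3 : 0 < (w1 - w2) ^ 2 := by
    have : w1 - w2 ≠ 0 := sub_ne_zero.2 hne
    positivity
  have h4 : 1 / 2 * (u ^ 2 / w1) + 1 / 2 * (u ^ 2 / w2) - u ^ 2 / (1 / 2 * w1 + 1 / 2 * w2)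
      = u ^ 2 * (w1 - w2) ^ 2 / (2 * w1 * w2 * (w1 + w2)) := by
    field_simp
    ring
  have h5 : 0 < u ^ 2 * (w1 - w2) ^ 2 / (2 * w1 * w2 * (w1 + w2)) := by positivity
  linarith

lemma Phi_mid_lt (z z' : Zs) (hz : z ∈ body) (hz' : z' ∈ body) (hne : z ≠ z') :
    Phi ((1 / 2 : ℝ) • z + (1 / 2 : ℝ) • z') < 1 := by
  by_cases hy : z.fst = z'.fst
  · have ht : z.snd ≠ z'.snd := fun ht => hne (by
      apply WithLp.ofLp_injective
      exact Prod.ext hy ht)
    have e1 : ((1 / 2 : ℝ) • z + (1 / 2 : ℝ) • z').fst = z.fst := by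
      have : ((1 / 2 : ℝ) • z + (1 / 2 : ℝ) • z').fst
          = (1 / 2 : ℝ) • z.fst + (1 / 2 : ℝ) • z'.fst := by simp
      rw [this, ← hy, ← add_smul]
      norm_num
    have e2 : ((1 / 2 : ℝ) • z + (1 / 2 : ℝ) • z').snd = 1 / 2 * z.snd + 1 / 2 * z'.snd := by
      simp
    have h1 := hz.2
    have h2 := hz'.2
    have k1 := abs_le.1 hz.1
    have k2 := abs_le.1 hz'.1
    unfold Phi GG at h1 h2 ⊢
    rw [← hy] at h2
    rw [e1, e2]
    set p := aa z.fst with hp
    set q := aa (-z.fst) with hq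
    set t := z.snd
    set t' := z'.snd
    have p0 : 0 ≤ p := aa_nonneg _
    have q0 : 0 ≤ q := aa_nonneg _
    have a1 := quad_over_lin p p p (2 + t) (2 + t') (1 / 2) (1 / 2) (by norm_num) (by norm_num)
      (by norm_num) p0 (by linarith) (by linarith) (by linarith)
    have a2 := quad_over_lin q q q (2 - t) (2 - t') (1 / 2) (1 / 2) (by norm_num) (by norm_num)
      (by norm_num) q0 (by linarith) (by linarith) (by linarith)
    have a3 := chi_convex t t' (1 / 2) (1 / 2) (by norm_num) (by norm_num) (by norm_num)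
    have f1 : 1 / 2 * (2 + t) + 1 / 2 * (2 + t') = 2 + (1 / 2 * t + 1 / 2 * t') := by ring
    have f2 : 1 / 2 * (2 - t) + 1 / 2 * (2 - t') = 2 - (1 / 2 * t + 1 / 2 * t') := by ring
    rcases eq_or_lt_of_le p0 with hp0 | hp0
    · rcases eq_or_lt_of_le q0 with hq0 | hq0
      · have hy0 : z.fst = 0 := eq_zero_of_aa _ (hp ▸ hp0.symm) (hq ▸ hq0.symm)
        rw [← hp0, ← hq0, hy0]
        have : |1 / 2 * t + 1 / 2 * t'| < 1 := by
          rw [abs_lt]
          rcases lt_or_gt_of_ne ht with h | h <;> constructor <;> linarith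
        have h6 : max 0 (2 * |1 / 2 * t + 1 / 2 * t'| - 1) < 1 := max_lt one_pos (by linarith)
        simpa using h6
      · have b := inv_strict q (2 - t) (2 - t') hq0 (by linarith) (by linarith)
          (fun h => ht (by linarith))
        rw [f1] at a1
        rw [f2] at b
        linarith
    · have b := inv_strict p (2 + t) (2 + t') hp0 (by linarith) (by linarith)
        (fun h => ht (by linarith))
      rw [f1] at b
      rw [f2] at a2
      linarith
  · have a := Phi_comb z z' (1 / 2) (1 / 2) (by norm_num) (by norm_num) (by norm_num) hz.1 hz'.1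
    have b : 0 < ‖z.fst - z'.fst‖ := norm_pos_iff.2 (sub_ne_zero.2 hy)
    have c := hz.2
    have d := hz'.2
    nlinarith

/-- Strict convexity of the body. -/
lemma body_strict (z z' : Zs) (hz : z ∈ body) (hz' : z' ∈ body) (hne : z ≠ z') :
    ∃ l : ℝ, 1 < l ∧ l • ((1 / 2 : ℝ) • z + (1 / 2 : ℝ) • z') ∈ body := by
  have h1 := Phi_mid_lt z z' hz hz' hne
  have h2 := abs_snd_comb z z' (1 / 2) (1 / 2) (by norm_num) (by norm_num) (by norm_num)
    hz.1 hz'.1
  set w := (1 / 2 : ℝ) • z + (1 / 2 : ℝ) • z'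
  have h3 : |w.snd| < 1 := by
    have k := abs_le.1 h2
    have a1 : 0 ≤ aa w.fst ^ 2 / (2 + w.snd) := div_nonneg (sq_nonneg _) (by linarith)
    have a2 : 0 ≤ aa (-w.fst) ^ 2 / (2 - w.snd) := div_nonneg (sq_nonneg _) (by linarith)
    have a3 := le_max_right 0 (2 * |w.snd| - 1)
    unfold Phi GG at h1
    nlinarith [sq_nonneg ‖w.fst‖]
  have c2 : Continuous fun z : Zs => z.snd := WithLp.continuous_snd _ _ _
  have n1 : ∀ᶠ u in 𝓝 w, Phi u < 1 := (Phi_continuousAt w h2).eventually_lt continuousAt_const h1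
  have n2 : ∀ᶠ u in 𝓝 w, |u.snd| < 1 := c2.abs.continuousAt.eventually_lt continuousAt_const h3
  have c3 : Tendsto (fun l : ℝ => l • w) (𝓝 1) (𝓝 w) := by
    have : Continuous (fun l : ℝ => l • w) := by fun_prop
    simpa using this.tendsto 1
  have n3 : ∀ᶠ l in 𝓝[>] (1 : ℝ), Phi (l • w) < 1 ∧ |(l • w).snd| < 1 :=
    nhdsWithin_le_nhds (c3.eventually (n1.and n2))
  obtain ⟨l, hl, hl1⟩ := (n3.and self_mem_nhdsWithin).exists
  exact ⟨l, hl1, hl.2.le, hl.1.le⟩

lemma Phi_zero : Phi 0 = 0 := by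
  have h : aa 0 = 0 := le_antisymm (by simpa using aa_le 0) (aa_nonneg 0)
  unfold Phi GG
  simp [h]

lemma shrink_mem (z : Zs) (ε : ℝ) (hε : 0 < ε) (h1 : |z.snd| ≤ 1) (h2 : Phi z ≤ 1 + ε) :
    (1 + ε)⁻¹ • z ∈ body := by
  have hl : 0 < (1 + ε)⁻¹ := by positivity
  have hl1 : (1 + ε)⁻¹ ≤ 1 := inv_le_one_of_one_le₀ (by linarith)
  have e : (1 + ε)⁻¹ • z = (1 + ε)⁻¹ • z + (1 - (1 + ε)⁻¹) • (0 : Zs) := by simp
  have h0 : |(0 : Zs).snd| ≤ 1 := by simp
  rw [e]
  refine ⟨abs_snd_comb z 0 _ _ hl.le (by linarith) (by ring) h1 h0, ?_⟩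
  have a := Phi_comb z 0 (1 + ε)⁻¹ (1 - (1 + ε)⁻¹) hl.le (by linarith) (by ring) h1 h0
  rw [Phi_zero] at a
  have b : 0 ≤ (1 + ε)⁻¹ * (1 - (1 + ε)⁻¹) * ‖z.fst - (0 : Zs).fst‖ ^ 2 :=
    mul_nonneg (mul_nonneg hl.le (by linarith)) (sq_nonneg _)
  have c := mul_le_mul_of_nonneg_left h2 hl.le
  have d : (1 + ε)⁻¹ * (1 + ε) = 1 := inv_mul_cancel₀ (by linarith)
  linarith

lemma GG_diff (p q p' q' t : ℝ) (h : |t| ≤ 1) :
    GG p q t ≤ GG p' q' t + (|p ^ 2 - p' ^ 2| + |q ^ 2 - q' ^ 2|) := by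
  rw [abs_le] at h
  have key : ∀ u u' w : ℝ, 1 ≤ w → u / w ≤ u' / w + |u - u'| := fun u u' w hw => by
    have h1 : u / w - u' / w = (u - u') / w := by ring
    have h2 : (u - u') / w ≤ |u - u'| / w :=
      div_le_div_of_nonneg_right (le_abs_self _) (by linarith)
    have h3 : |u - u'| / w ≤ |u - u'| := div_le_self (abs_nonneg _) hw
    linarith
  have a := key (p ^ 2) (p' ^ 2) (2 + t) (by linarith)
  have b := key (q ^ 2) (q' ^ 2) (2 - t) (by linarith)
  unfold GG
  linarith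

/-- Continuous almost-selection of the last coordinate. -/
lemma exists_selection {K : Type*} [TopologicalSpace K] [CompactSpace K] [T2Space K]
    (b : K → Zs) (hb : ∀ k, b k ∈ body) (hy : ∀ n, Continuous fun k => (b k).fst n)
    (ε : ℝ) (hε : 0 < ε) :
    ∃ g : C(K, ℝ), ∀ k, (1 + ε)⁻¹ • (WithLp.toLp 2 ((b k).fst, g k) : Zs) ∈ body := by
  have cp : Continuous fun k => aa (b k).fst :=
    aa_comp_continuous _ hy (fun k => body_fst_le _ (hb k))
  have cq : Continuous fun k => aa (-(b k).fst) :=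
    aa_comp_continuous (fun k => -(b k).fst) (fun n => (hy n).neg.congr (fun k => by simp))
      (fun k => by rw [norm_neg]; exact body_fst_le _ (hb k))
  set p := fun k => aa (b k).fst with hp
  set q := fun k => aa (-(b k).fst) with hq
  have p0 : ∀ k, 0 ≤ p k := fun k => aa_nonneg _
  have q0 : ∀ k, 0 ≤ q k := fun k => aa_nonneg _
  obtain ⟨g, hg⟩ := exists_continuous_forall_mem_convex_of_local_const (X := K) (E := ℝ)
    (t := fun k => {s : ℝ | |s| ≤ 1 ∧ ∀ t, |t| ≤ 1 → GG (p k) (q k) s ≤ GG (p k) (q k) t + ε})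
    (fun k s hs s' hs' l m hl hm hlm => by
      refine ⟨?_, fun t ht => ?_⟩
      · have h1 := abs_le.1 hs.1
        have h2 := abs_le.1 hs'.1
        simp only [smul_eq_mul]
        rw [abs_le]
        constructor <;> nlinarith
      · have a := GG_convex (p k) (p k) (p k) (q k) (q k) (q k) s s' l m hl hm hlm (p0 k)
          (by rw [← add_mul, hlm, one_mul]) (q0 k) (by rw [← add_mul, hlm, one_mul]) hs.1 hs'.1
        have c := mul_le_mul_of_nonneg_left (hs.2 t ht) hl
        have d := mul_le_mul_of_nonneg_left (hs'.2 t ht) hm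
        simp only [smul_eq_mul]
        have e : l * (GG (p k) (q k) t + ε) + m * (GG (p k) (q k) t + ε)
            = GG (p k) (q k) t + ε := by rw [← add_mul, hlm, one_mul]
        linarith)
    (fun k0 => by
      have hcont : ContinuousOn (fun t => GG (p k0) (q k0) t) (Set.Icc (-1) 1) := by
        intro t ht
        have h1 : 2 + t ≠ 0 := by linarith [ht.1]
        have h2 : 2 - t ≠ 0 := by linarith [ht.2]
        apply ContinuousAt.continuousWithinAt
        unfold GG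
        fun_prop (disch := assumption)
      obtain ⟨c, hc, hmin⟩ := isCompact_Icc.exists_isMinOn (Set.nonempty_Icc.2 (by norm_num)) hcont
      refine ⟨c, ?_⟩
      have cc : Continuous fun k => |p k ^ 2 - p k0 ^ 2| + |q k ^ 2 - q k0 ^ 2| := by fun_prop
      have ev : ∀ᶠ k in 𝓝 k0, |p k ^ 2 - p k0 ^ 2| + |q k ^ 2 - q k0 ^ 2| < ε / 2 :=
        cc.continuousAt.eventually_lt continuousAt_const (by simpa using hε)
      filter_upwards [ev] with k hk
      have hc' : |c| ≤ 1 := abs_le.2 hc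
      refine ⟨hc', fun t ht => ?_⟩
      have a1 := GG_diff (p k) (q k) (p k0) (q k0) c hc'
      have a2 := GG_diff (p k0) (q k0) (p k) (q k) t ht
      have a3 : GG (p k0) (q k0) c ≤ GG (p k0) (q k0) t := hmin (abs_le.1 ht)
      rw [abs_sub_comm (p k0 ^ 2), abs_sub_comm (q k0 ^ 2)] at a2
      linarith)
  refine ⟨g, fun k => shrink_mem _ ε hε (hg k).1 ?_⟩
  have a := (hg k).2 (b k).snd (hb k).1
  have c := (hb k).2
  unfold Phi at c ⊢
  change ‖(b k).fst‖ ^ 2 + GG (p k) (q k) (g k) ≤ 1 + ε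
  change ‖(b k).fst‖ ^ 2 + GG (p k) (q k) (b k).snd ≤ 1 at c
  linarith

/-- The boundary points over the coordinate axes sit at height at least one half. -/
lemma exists_axis_point (n : ℕ) : ∃ c : ℝ, |c| ≤ 1 ∧
    (WithLp.toLp 2 (lp.single 2 n c, (1 / 2 : ℝ)) : Zs) ∈ body ∧
    ∀ z ∈ body, z.fst = lp.single 2 n c → 1 / 2 ≤ z.snd := by
  set d : ℝ := (1 / 2 : ℝ) ^ n with hd
  have d0 : 0 < d := by positivity
  have hpos : 0 < 1 + d ^ 2 * (2 / 5) := by positivity
  set c : ℝ := (√(1 + d ^ 2 * (2 / 5)))⁻¹ with hc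
  have c0 : 0 < c := by positivity
  have c1 : c ^ 2 * (1 + d ^ 2 * (2 / 5)) = 1 := by
    rw [hc, inv_pow, Real.sq_sqrt hpos.le]
    field_simp
  have hn : ‖(lp.single 2 n c : Hs)‖ = c := by
    rw [lp.norm_single (by norm_num), Real.norm_eq_abs, abs_of_pos c0]
  have ha : aa (lp.single 2 n c) = d * c := by rw [aa_single, max_eq_left c0.le]
  have hb : aa (-lp.single 2 n c) = 0 := by
    rw [← lp.single_neg, aa_single, max_eq_right (by linarith), mul_zero]
  refine ⟨c, ?_, ⟨?_, ?_⟩, fun z hz hzc => ?_⟩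
  · rw [abs_of_pos c0]
    by_contra h
    push Not at h
    nlinarith [sq_nonneg d]
  · change |(1 / 2 : ℝ)| ≤ 1
    norm_num [abs_of_pos]
  · change ‖(lp.single 2 n c : Hs)‖ ^ 2 +
      GG (aa (lp.single 2 n c)) (aa (-lp.single 2 n c)) (1 / 2) ≤ 1
    rw [hn, ha, hb]
    unfold GG
    rw [abs_of_pos (by norm_num : (0 : ℝ) < 1 / 2)]
    norm_num
    nlinarith
  · have h1 := hz.2
    have h2 := abs_le.1 hz.1
    unfold Phi GG at h1
    rw [hzc, hn, ha, hb] at h1
    have h3 := le_max_left 0 (2 * |z.snd| - 1)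
    have h4 : (d * c) ^ 2 / (2 + z.snd) ≤ (d * c) ^ 2 * (2 / 5) := by
      have : (0 : ℝ) ^ 2 / (2 - z.snd) = 0 := by simp
      nlinarith
    rw [div_le_iff₀ (by linarith)] at h4
    have h5 : 0 < (d * c) ^ 2 := by positivity
    by_contra h
    push Not at h
    nlinarith

end Pool.Agent.P.MP_d85bbb_an
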