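import Mathlib

/-!
General facts: Gateaux smoothness from uniqueness of norming functionals, renorming a Hilbert
space by the support function of a convex body, and reflexivity of isomorphs of Hilbert spaces.
-/

set_option autoImplicit false

open Filter Topology
open scoped InnerProductSpace BoundedContinuousFunction

namespace Pool.Agent.P.MP_d85bbb_an

/-- If the norming functional at `x` is unique then the norm is Gateaux differentiable at `x`. -/
theorem gateaux_of_unique {X : Type*} [NormedAddCommGroup X] [NormedSpace ℝ X] (x : X)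
    (huniq : ∀ f g : X →L[ℝ] ℝ, ‖f‖ ≤ 1 → f x = ‖x‖ → ‖g‖ ≤ 1 → g x = ‖x‖ → f = g) :
    ∃ f : X →L[ℝ] ℝ, ∀ v, HasLineDerivAt ℝ (fun y : X => ‖y‖) (f v) x v := by
  obtain ⟨f, hf1, hfx⟩ := exists_dual_vector'' ℝ x
  refine ⟨f, fun v => ?_⟩
  choose g hg1 hg2 using fun t : ℝ => exists_dual_vector'' ℝ (x + t • v)
  have hfx' : f x = ‖x‖ := by simpa using hfx
  have hg2' : ∀ t, g t (x + t • v) = ‖x + t • v‖ := fun t => by simpa using hg2 t
  have hle : ∀ (h : X →L[ℝ] ℝ), ‖h‖ ≤ 1 → ∀ w, |h w| ≤ ‖w‖ := fun h hh w => by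
    have := h.le_opNorm w
    rw [Real.norm_eq_abs] at this
    nlinarith [norm_nonneg w]
  have hgx : Tendsto (fun t => g t x) (𝓝 0) (𝓝 ‖x‖) := by
    have h1 : Tendsto (fun t : ℝ => ‖x + t • v‖) (𝓝 0) (𝓝 ‖x‖) := by
      have : Continuous (fun t : ℝ => ‖x + t • v‖) := by fun_prop
      simpa using this.tendsto 0
    have h2 : Tendsto (fun t : ℝ => t * g t v) (𝓝 0) (𝓝 0) := by
      have h3 : Tendsto (fun t : ℝ => |t| * ‖v‖) (𝓝 0) (𝓝 0) := by
        have : Continuous (fun t : ℝ => |t| * ‖v‖) := by fun_prop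
        simpa using this.tendsto 0
      refine squeeze_zero_norm (fun t => ?_) h3
      rw [Real.norm_eq_abs, abs_mul]
      exact mul_le_mul_of_nonneg_left (hle _ (hg1 t) v) (abs_nonneg t)
    have h4 := h1.sub h2
    rw [sub_zero] at h4
    refine h4.congr (fun t => ?_)
    rw [← hg2' t]
    simp
  have hconv : Tendsto (fun t => StrongDual.toWeakDual (g t)) (𝓝 0)
      (𝓝 (StrongDual.toWeakDual f)) := by
    refine (WeakDual.isCompact_closedBall (𝕜 := ℝ) (E := X) 0 1).tendsto_nhds_of_unique_mapClusterPt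
      (Eventually.of_forall fun t => ?_) (fun h hh hcl => ?_)
    · simpa using hg1 t
    · have hh1 : ‖WeakDual.toStrongDual h‖ ≤ 1 := by simpa using hh
      have hc : Continuous (fun k : WeakDual ℝ X => k x) := WeakDual.eval_continuous x
      have hcl2 : MapClusterPt (h x) (𝓝 0) (fun t => g t x) := hcl.continuousAt_comp hc.continuousAt
      have hx : h x = ‖x‖ := eq_of_nhds_neBot (ClusterPt.mono hcl2 hgx)
      have := huniq (WeakDual.toStrongDual h) f hh1 hx hf1 hfx'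
      rw [← this]
      rfl
  have hgv : Tendsto (fun t => g t v) (𝓝 0) (𝓝 (f v)) :=
    ((WeakDual.eval_continuous v).tendsto _).comp hconv
  unfold HasLineDerivAt
  rw [hasDerivAt_iff_isLittleO_nhds_zero, Asymptotics.isLittleO_iff]
  intro c hc
  have hev : ∀ᶠ t in 𝓝 (0 : ℝ), |g t v - f v| < c := by
    have := (Metric.tendsto_nhds.1 hgv) c hc
    simpa [Real.dist_eq] using this
  filter_upwards [hev] with t ht
  simp only [zero_add, zero_smul, add_zero, smul_eq_mul, Real.norm_eq_abs]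
  have a1 : f (x + t • v) ≤ ‖x + t • v‖ := (le_abs_self _).trans (hle f hf1 _)
  have a2 : g t x ≤ ‖x‖ := (le_abs_self _).trans (hle _ (hg1 t) _)
  have a3 := hg2' t
  simp only [map_add, map_smul, smul_eq_mul] at a1 a3
  have a4 : t * (g t v - f v) ≤ c * |t| := by
    calc t * (g t v - f v) ≤ |t * (g t v - f v)| := le_abs_self _
      _ = |t| * |g t v - f v| := abs_mul _ _
      _ ≤ |t| * c := mul_le_mul_of_nonneg_left ht.le (abs_nonneg t)
      _ = c * |t| := mul_comm _ _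
  rw [abs_le]
  constructor
  · have : 0 ≤ c * |t| := by positivity
    linarith
  · linarith

/-- A space isomorphic to a Hilbert space is reflexive. -/
theorem reflexive_of_equiv {Z X : Type*} [NormedAddCommGroup Z] [InnerProductSpace ℝ Z]
    [CompleteSpace Z] [NormedAddCommGroup X] [NormedSpace ℝ X] (e : Z ≃L[ℝ] X) :
    Function.Surjective (NormedSpace.inclusionInDoubleDual ℝ X) := by
  intro Λ
  let w : Z →ₗ[ℝ] ℝ :=
    { toFun := fun z => Λ ((innerSL ℝ z).comp (e.symm : X →L[ℝ] Z))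
      map_add' := fun z z' => by
        rw [← map_add]; congr 1; ext u; simp
      map_smul' := fun c z => by
        rw [RingHom.id_apply, ← map_smul]; congr 1; ext u; simp }
  have hw : ∀ z, ‖w z‖ ≤ (‖Λ‖ * ‖(e.symm : X →L[ℝ] Z)‖) * ‖z‖ := fun z => by
    calc ‖w z‖ ≤ ‖Λ‖ * ‖(innerSL ℝ z).comp (e.symm : X →L[ℝ] Z)‖ := Λ.le_opNorm _
      _ ≤ ‖Λ‖ * (‖innerSL ℝ z‖ * ‖(e.symm : X →L[ℝ] Z)‖) :=
        mul_le_mul_of_nonneg_left (ContinuousLinearMap.opNorm_comp_le _ _) Λ.opNorm_nonneg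
      _ = (‖Λ‖ * ‖(e.symm : X →L[ℝ] Z)‖) * ‖z‖ := by rw [innerSL_apply_norm]; ring
  let w' : Z →L[ℝ] ℝ := w.mkContinuous _ hw
  let z0 : Z := (InnerProductSpace.toDual ℝ Z).symm w'
  refine ⟨e z0, ?_⟩
  ext f
  let b : Z := (InnerProductSpace.toDual ℝ Z).symm (f.comp (e : Z →L[ℝ] X))
  have hb : ∀ z, ⟪b, z⟫_ℝ = f (e z) := fun z => by
    simp [b, InnerProductSpace.toDual_symm_apply]
  have hf : f = (innerSL ℝ b).comp (e.symm : X →L[ℝ] Z) := by
    ext u; simp [hb]
  have hz0 : ⟪z0, b⟫_ℝ = w' b := by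
    simp [z0, InnerProductSpace.toDual_symm_apply]
  rw [NormedSpace.dual_def, ← hb, real_inner_comm, hz0]
  conv_rhs => rw [hf]
  rfl

/-- Renorming a Hilbert space so that the dual unit ball becomes a prescribed convex body `B`. -/
theorem exists_renorm (Z : Type) [NormedAddCommGroup Z] [InnerProductSpace ℝ Z] [CompleteSpace Z]
    (B : Set Z) (hBc : IsClosed B) (hBv : Convex ℝ B) (hBs : ∀ b ∈ B, -b ∈ B) (R r : ℝ)
    (hr : 0 < r) (hR : ∀ b ∈ B, ‖b‖ ≤ R) (hr' : ∀ b, ‖b‖ ≤ r → b ∈ B) :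
    ∃ (X : Type) (_ : NormedAddCommGroup X) (_ : NormedSpace ℝ X) (_ : CompleteSpace X)
      (e : Z ≃L[ℝ] X), ∀ f : X →L[ℝ] ℝ, ‖f‖ ≤ 1 ↔ ∃ b ∈ B, ∀ z, f (e z) = ⟪b, z⟫_ℝ := by
  have h0 : (0 : Z) ∈ B := hr' 0 (by simpa using hr.le)
  have hR0 : 0 ≤ R := by simpa using hR 0 h0
  have hbd : ∀ (z : Z) (b : B), ‖⟪(b : Z), z⟫_ℝ‖ ≤ R * ‖z‖ := fun z b =>
    (norm_inner_le_norm _ _).trans (mul_le_mul_of_nonneg_right (hR _ b.2) (norm_nonneg _))
  let J : Z →ₗ[ℝ] (B →ᵇ ℝ) :=
    { toFun := fun z => BoundedContinuousFunction.ofNormedAddCommGroup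
        (fun b : B => ⟪(b : Z), z⟫_ℝ) (by fun_prop) (R * ‖z‖) (hbd z)
      map_add' := fun z z' => by ext b; simp [inner_add_right]
      map_smul' := fun c z => by ext b; simp [inner_smul_right] }
  have hJ : ∀ z (b : B), J z b = ⟪(b : Z), z⟫_ℝ := fun z b => rfl
  have hJle : ∀ z (c : ℝ), 0 ≤ c → (∀ b ∈ B, ⟪b, z⟫_ℝ ≤ c) → ‖J z‖ ≤ c := fun z c hc h => by
    rw [BoundedContinuousFunction.norm_le hc]
    intro b
    rw [hJ, Real.norm_eq_abs, abs_le]
    refine ⟨?_, h _ b.2⟩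
    have := h _ (hBs _ b.2)
    rw [inner_neg_left] at this
    linarith
  have hJge : ∀ z, ∀ b ∈ B, |⟪b, z⟫_ℝ| ≤ ‖J z‖ := fun z b hb =>
    (J z).norm_coe_le_norm ⟨b, hb⟩
  have hup : ∀ z, ‖J z‖ ≤ R * ‖z‖ := fun z =>
    (BoundedContinuousFunction.norm_le (by positivity)).2 (hbd z)
  have hlow : ∀ z, ‖z‖ ≤ r⁻¹ * ‖J z‖ := fun z => by
    by_cases hz : z = 0
    · simp [hz]
    · have hz' : 0 < ‖z‖ := norm_pos_iff.2 hz
      have hb : (r / ‖z‖) • z ∈ B := hr' _ (by
        rw [norm_smul, Real.norm_eq_abs, abs_of_pos (by positivity)]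
        field_simp
        rfl)
      have := hJge z _ hb
      rw [inner_smul_left, real_inner_self_eq_norm_sq] at this
      simp only [conj_trivial] at this
      rw [abs_of_pos (by positivity)] at this
      have h2 : r / ‖z‖ * ‖z‖ ^ 2 = r * ‖z‖ := by field_simp
      rw [h2] at this
      rw [le_inv_mul_iff₀ hr]
      exact this
  have hinj : Function.Injective J := by
    rw [injective_iff_map_eq_zero]
    intro z hz
    have := hlow z
    rw [hz] at this
    simpa using this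
  let e0 : Z ≃ₗ[ℝ] LinearMap.range J := LinearEquiv.ofInjective J hinj
  have he0 : ∀ z, ‖e0 z‖ = ‖J z‖ := fun z => rfl
  have hb1 : ∀ z, ‖e0 z‖ ≤ R * ‖z‖ := fun z => by rw [he0]; exact hup z
  have hb2 : ∀ x, ‖e0.symm x‖ ≤ r⁻¹ * ‖x‖ := fun x => by
    have := hlow (e0.symm x)
    rwa [← he0, LinearEquiv.apply_symm_apply] at this
  let e : Z ≃L[ℝ] LinearMap.range J :=
    { e0 with
      continuous_toFun := AddMonoidHomClass.continuous_of_bound e0 R hb1
      continuous_invFun := AddMonoidHomClass.continuous_of_bound e0.symm r⁻¹ hb2 }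
  have he : ∀ z, ‖e z‖ = ‖J z‖ := fun z => rfl
  have hcomp : CompleteSpace (LinearMap.range J) := by
    have hanti : AntilipschitzWith ⟨r⁻¹, by positivity⟩ J :=
      AddMonoidHomClass.antilipschitz_of_bound J hlow
    have hcl : IsClosed (Set.range J) :=
      hanti.isClosed_range (J.mkContinuous R hup).uniformContinuous
    have hcl' : IsClosed (LinearMap.range J : Set (B →ᵇ ℝ)) := by
      rwa [LinearMap.coe_range]
    exact hcl'.completeSpace_coe
  refine ⟨LinearMap.range J, inferInstance, inferInstance, hcomp, e, fun f => ⟨fun hf => ?_, ?_⟩⟩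
  · let b : Z := (InnerProductSpace.toDual ℝ Z).symm (f.comp (e : Z →L[ℝ] _))
    have hb : ∀ z, f (e z) = ⟪b, z⟫_ℝ := fun z => by
      simp [b, InnerProductSpace.toDual_symm_apply]
    refine ⟨b, ?_, hb⟩
    by_contra hbB
    obtain ⟨g, u, hg1, hg2⟩ := geometric_hahn_banach_closed_point hBv hBc hbB
    let w : Z := (InnerProductSpace.toDual ℝ Z).symm g
    have hw : ∀ z, ⟪z, w⟫_ℝ = g z := fun z => by
      rw [real_inner_comm]
      simp [w, InnerProductSpace.toDual_symm_apply]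
    have hu : 0 ≤ u := by simpa using (hg1 0 h0).le
    have h1 : ‖J w‖ ≤ u := hJle w u hu (fun a ha => by rw [hw]; exact (hg1 a ha).le)
    have h2 : f (e w) ≤ ‖J w‖ := by
      have := f.le_opNorm (e w)
      rw [he, Real.norm_eq_abs] at this
      have h3 := le_abs_self (f (e w))
      nlinarith [norm_nonneg (J w)]
    rw [hb, hw] at h2
    linarith
  · rintro ⟨b, hbB, hb⟩
    refine f.opNorm_le_bound zero_le_one (fun x => ?_)
    obtain ⟨z, rfl⟩ := e.surjective x
    rw [hb, he, one_mul, Real.norm_eq_abs]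
    exact hJge z b hbB

end Pool.Agent.P.MP_d85bbb_an
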